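import Mathlib

/-! Local search allocation: adding an edge can increase the maximum load. -/

open Finset
open scoped ENNReal

namespace Pool.Agent.Results.MP_61ae3e_pr.AddEdge

section model

variable {V : Type} [Fintype V]

open Classical in
/-- If `v` has a neighbour of smaller load, these are the neighbours of `v` of minimum load;
otherwise the set is empty. -/
noncomputable def cand (G : SimpleGraph V) (X : V → ℕ) (v : V) : Finset V :=
  univ.filter (fun u => G.Adj v u ∧ X u < X v ∧ ∀ w, G.Adj v w → X u ≤ X w)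

open Classical in
/-- Position of a ball after at most `k` moves started at `v`, the loads being frozen at `X`: at a
vertex with a neighbour of smaller load the ball moves to a uniformly chosen neighbour of minimum
load, otherwise it stays. -/
noncomputable def walk (G : SimpleGraph V) (X : V → ℕ) : ℕ → V → PMF V
  | 0, v => PMF.pure v
  | k + 1, v =>
    if h : (cand G X v).Nonempty then (PMF.uniformOfFinset (cand G X v) h).bind (walk G X k)
    else PMF.pure v

/-- One ball: uniform birthplace `u`, then the walk (run for `X u` moves, which is enough since the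
load strictly decreases along it), then the load of the final position goes up by one. -/
noncomputable def step [DecidableEq V] (G : SimpleGraph V) [Nonempty V] (X : V → ℕ) : PMF (V → ℕ) :=
  (PMF.uniformOfFintype V).bind
    (fun u => (walk G X (X u) u).map (fun w => Function.update X w (X w + 1)))

/-- Law of the load vector after `m` balls. -/
noncomputable def law [DecidableEq V] (G : SimpleGraph V) [Nonempty V] : ℕ → PMF (V → ℕ)
  | 0 => PMF.pure (fun _ => 0)
  | m + 1 => (law G m).bind (step G)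

/-- Probability that the maximum load after `m` balls is at least `l`. -/
noncomputable def maxTail [DecidableEq V] (G : SimpleGraph V) [Nonempty V] (m l : ℕ) : ℝ≥0∞ :=
  (law G m).toOuterMeasure {X | l ≤ univ.sup X}

end model

section expectation

/-- Expectation of a nonnegative function. -/
noncomputable def ex {α : Type} (p : PMF α) (f : α → ℝ≥0∞) : ℝ≥0∞ := ∑' a, p a * f a

lemma ex_pure {α : Type} (a : α) (f : α → ℝ≥0∞) : ex (PMF.pure a) f = f a := by
  classical
  unfold ex
  rw [tsum_eq_single a]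
  · simp
  · intro b hb
    simp [PMF.pure_apply, hb]

lemma ex_bind {α β : Type} (p : PMF α) (q : α → PMF β) (f : β → ℝ≥0∞) :
    ex (p.bind q) f = ex p (fun a => ex (q a) f) := by
  unfold ex
  simp_rw [PMF.bind_apply, ← ENNReal.tsum_mul_right, ← ENNReal.tsum_mul_left]
  rw [ENNReal.tsum_comm]
  simp_rw [mul_assoc]

lemma ex_map {α β : Type} (p : PMF α) (g : α → β) (f : β → ℝ≥0∞) :
    ex (p.map g) f = ex p (fun a => f (g a)) := by
  rw [PMF.map, ex_bind]
  congr 1
  funext a
  simp [ex_pure]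

lemma ex_uniformOfFinset {α : Type} (s : Finset α) (h : s.Nonempty) (f : α → ℝ≥0∞) :
    ex (PMF.uniformOfFinset s h) f = (∑ a ∈ s, f a) / (#s : ℝ≥0∞) := by
  classical
  unfold ex
  rw [tsum_eq_sum (s := s)]
  · rw [div_eq_mul_inv, Finset.sum_mul]
    refine Finset.sum_congr rfl fun a ha => ?_
    rw [PMF.uniformOfFinset_apply_of_mem h ha, mul_comm]
  · intro b hb
    rw [PMF.uniformOfFinset_apply_of_notMem h hb, zero_mul]

lemma ex_uniform {α : Type} [Fintype α] [Nonempty α] (f : α → ℝ≥0∞) :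
    ex (PMF.uniformOfFintype α) f = (∑ a, f a) / (Fintype.card α : ℝ≥0∞) := by
  have := ex_uniformOfFinset (univ : Finset α) univ_nonempty f
  rwa [card_univ] at this

lemma outer_eq_ex {α : Type} (p : PMF α) (s : Set α) :
    p.toOuterMeasure s = ex p (s.indicator 1) := by
  classical
  rw [PMF.toOuterMeasure_apply]
  unfold ex
  congr 1
  funext a
  by_cases h : a ∈ s <;> simp [h]

end expectation

section computation

/-- Nonnegative rationals as extended nonnegative reals. -/
noncomputable def cst (q : ℚ) : ℝ≥0∞ := ENNReal.ofReal (q : ℝ)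

lemma cst_sum {α : Type} (s : Finset α) (f : α → ℚ) (h : ∀ a ∈ s, 0 ≤ f a) :
    cst (∑ a ∈ s, f a) = ∑ a ∈ s, cst (f a) := by
  unfold cst
  rw [Rat.cast_sum, ENNReal.ofReal_sum_of_nonneg]
  intro a ha
  exact_mod_cast h a ha

lemma cst_div (a : ℚ) {n : ℕ} (hn : 0 < n) : cst (a / n) = cst a / (n : ℝ≥0∞) := by
  unfold cst
  push_cast
  rw [ENNReal.ofReal_div_of_pos (by exact_mod_cast hn), ENNReal.ofReal_natCast]

def candQ (adj : Fin 5 → Fin 5 → Bool) (X : Fin 5 → ℕ) (v : Fin 5) : Finset (Fin 5) :=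
  univ.filter (fun u => adj v u = true ∧ X u < X v ∧ ∀ w, adj v w = true → X u ≤ X w)

def walkQ (adj : Fin 5 → Fin 5 → Bool) (X : Fin 5 → ℕ) (f : Fin 5 → ℚ) : ℕ → Fin 5 → ℚ
  | 0, v => f v
  | k + 1, v => if #(candQ adj X v) = 0 then f v else
      (∑ u ∈ candQ adj X v, walkQ adj X f k u) / (#(candQ adj X v) : ℚ)

def stepQ (adj : Fin 5 → Fin 5 → Bool) (f : (Fin 5 → ℕ) → ℚ) (X : Fin 5 → ℕ) : ℚ :=
  (∑ u : Fin 5, walkQ adj X (fun w => f (Function.update X w (X w + 1))) (X u) u) / (5 : ℕ)

def f0 (X : Fin 5 → ℕ) : ℚ := if (∃ v, 2 ≤ X v) then 1 else 0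

variable {G : SimpleGraph (Fin 5)} {adj : Fin 5 → Fin 5 → Bool}

lemma cand_eq (h : ∀ a b, adj a b = true ↔ G.Adj a b) (X : Fin 5 → ℕ) (v : Fin 5) :
    cand G X v = candQ adj X v := by
  ext u
  simp only [cand, candQ, mem_filter, mem_univ, true_and, h]

lemma walkQ_nonneg (X : Fin 5 → ℕ) (f : Fin 5 → ℚ) (hf : ∀ v, 0 ≤ f v) (k : ℕ) (v : Fin 5) :
    0 ≤ walkQ adj X f k v := by
  induction k generalizing v with
  | zero => exact hf v
  | succ k ih =>
    rw [walkQ]
    split_ifs
    · exact hf v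
    · exact div_nonneg (Finset.sum_nonneg fun u _ => ih u) (Nat.cast_nonneg _)

lemma walk_eq (h : ∀ a b, adj a b = true ↔ G.Adj a b) (X : Fin 5 → ℕ) (f : Fin 5 → ℚ)
    (hf : ∀ v, 0 ≤ f v) (k : ℕ) (v : Fin 5) :
    ex (walk G X k v) (fun w => cst (f w)) = cst (walkQ adj X f k v) := by
  induction k generalizing v with
  | zero => rw [walk, ex_pure, walkQ]
  | succ k ih =>
    rw [walk, walkQ]
    by_cases hne : (cand G X v).Nonempty
    · have hc : #(candQ adj X v) ≠ 0 := by
        rw [← cand_eq h]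
        exact (Finset.card_pos.2 hne).ne'
      rw [dif_pos hne, if_neg hc, ex_bind, ex_uniformOfFinset]
      simp_rw [ih]
      rw [cand_eq h, cst_div _ (Nat.pos_of_ne_zero hc), cst_sum]
      intro u _
      exact walkQ_nonneg X f hf k u
    · have hc : #(candQ adj X v) = 0 := by
        rw [← cand_eq h, Finset.card_eq_zero]
        exact Finset.not_nonempty_iff_eq_empty.1 hne
      rw [dif_neg hne, if_pos hc, ex_pure]

lemma stepQ_nonneg (f : (Fin 5 → ℕ) → ℚ) (hf : ∀ X, 0 ≤ f X) (X : Fin 5 → ℕ) :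
    0 ≤ stepQ adj f X := by
  unfold stepQ
  exact div_nonneg (Finset.sum_nonneg fun u _ => walkQ_nonneg _ _ (fun w => hf _) _ _)
    (Nat.cast_nonneg _)

lemma step_eq (h : ∀ a b, adj a b = true ↔ G.Adj a b) (f : (Fin 5 → ℕ) → ℚ)
    (hf : ∀ X, 0 ≤ f X) (X : Fin 5 → ℕ) :
    ex (step G X) (fun Y => cst (f Y)) = cst (stepQ adj f X) := by
  rw [step, ex_bind, ex_uniform, stepQ, cst_div _ (by norm_num), cst_sum]
  · simp_rw [ex_map]
    rw [Fintype.card_fin]
    congr 1
    refine Finset.sum_congr rfl fun u _ => ?_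
    rw [← walk_eq h X (fun w => f (Function.update X w (X w + 1))) (fun w => hf _)]
  · intro u _
    exact walkQ_nonneg _ _ (fun w => hf _) _ _

lemma law_four (h : ∀ a b, adj a b = true ↔ G.Adj a b) :
    maxTail G 4 2 = cst (stepQ adj (stepQ adj (stepQ adj (stepQ adj f0))) (fun _ => 0)) := by
  have h0 : ∀ X, 0 ≤ f0 X := by
    intro X
    unfold f0
    split_ifs <;> norm_num
  have h1 := stepQ_nonneg (adj := adj) f0 h0
  have h2 := stepQ_nonneg (adj := adj) _ h1
  have h3 := stepQ_nonneg (adj := adj) _ h2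
  rw [maxTail, outer_eq_ex]
  have hind : ({X | 2 ≤ univ.sup X} : Set (Fin 5 → ℕ)).indicator (1 : (Fin 5 → ℕ) → ℝ≥0∞) =
      fun X => cst (f0 X) := by
    funext X
    have hiff : 2 ≤ univ.sup X ↔ ∃ v, 2 ≤ X v := by
      rw [Finset.le_sup_iff (by norm_num)]
      simp
    by_cases hX : ∃ v, 2 ≤ X v
    · rw [Set.indicator_of_mem (by rw [Set.mem_ofPred_eq, hiff]; exact hX)]
      simp [f0, hX, cst]
    · rw [Set.indicator_of_notMem (by rw [Set.mem_ofPred_eq, hiff]; exact hX)]
      simp [f0, hX, cst]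
  rw [hind]
  simp only [law]
  rw [ex_bind, ex_bind, ex_bind, ex_bind, ex_pure]
  simp_rw [step_eq h _ h0, step_eq h _ h1, step_eq h _ h2, step_eq h _ h3]

end computation

/-- The complete bipartite graph with parts `{0, 1}` and `{2, 3, 4}`. -/
def K23 : SimpleGraph (Fin 5) where
  Adj a b := (a.1 < 2 ∧ 2 ≤ b.1) ∨ (b.1 < 2 ∧ 2 ≤ a.1)
  symm := ⟨fun a b h => by tauto⟩
  loopless := ⟨fun a h => by omega⟩

/-- The same graph with the edge joining `0` and `1` added. -/
def K23e : SimpleGraph (Fin 5) where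
  Adj a b := K23.Adj a b ∨ (a = 0 ∧ b = 1) ∨ (a = 1 ∧ b = 0)
  symm := ⟨fun a b h => by
    rcases h with h | h | h
    · exact Or.inl h.symm
    · exact Or.inr (Or.inr ⟨h.2, h.1⟩)
    · exact Or.inr (Or.inl ⟨h.2, h.1⟩)⟩
  loopless := ⟨fun a h => by
    rcases h with h | h | h
    · exact K23.irrefl h
    · have := h.1.symm.trans h.2; exact absurd this (by decide)
    · have := h.1.symm.trans h.2; exact absurd this (by decide)⟩

def adjA (a b : Fin 5) : Bool := decide ((a.1 < 2 ∧ 2 ≤ b.1) ∨ (b.1 < 2 ∧ 2 ≤ a.1))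

def adjB (a b : Fin 5) : Bool := adjA a b || decide ((a = 0 ∧ b = 1) ∨ (a = 1 ∧ b = 0))

lemma adjA_iff (a b : Fin 5) : adjA a b = true ↔ K23.Adj a b := by
  simp [adjA, K23]

lemma adjB_iff (a b : Fin 5) : adjB a b = true ↔ K23e.Adj a b := by
  simp only [adjB, Bool.or_eq_true, adjA_iff, decide_eq_true_eq, K23e]

set_option maxRecDepth 100000 in
lemma valA : stepQ adjA (stepQ adjA (stepQ adjA (stepQ adjA f0))) (fun _ => 0) = 44 / 625 := by
  decide +kernel

set_option maxRecDepth 100000 in
lemma valB : stepQ adjB (stepQ adjB (stepQ adjB (stepQ adjB f0))) (fun _ => 0) = 51 / 625 := by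
  decide +kernel

lemma tailA : maxTail K23 4 2 = 44 / 625 := by
  rw [law_four adjA_iff, valA, cst]
  push_cast
  rw [ENNReal.ofReal_div_of_pos (by norm_num)]
  norm_num

lemma tailB : maxTail K23e 4 2 = 51 / 625 := by
  rw [law_four adjB_iff, valB, cst]
  push_cast
  rw [ENNReal.ofReal_div_of_pos (by norm_num)]
  norm_num

/-- Adding one edge to the complete bipartite graph `K_{2,3}` raises the probability that the
maximum load after 4 balls is at least 2 from `44/625` to `51/625`. -/
theorem result :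
    ∃ G G' : SimpleGraph (Fin 5), G ≤ G' ∧ G.Connected ∧
      maxTail G 4 2 = 44 / 625 ∧ maxTail G' 4 2 = 51 / 625 ∧ maxTail G 4 2 < maxTail G' 4 2 := by
  refine ⟨K23, K23e, fun a b h => Or.inl h, ?_, tailA, tailB, ?_⟩
  · have h0 : ∀ v : Fin 5, K23.Reachable 0 v := by
      have h2 : ∀ v : Fin 5, 2 ≤ v.1 → K23.Reachable 0 v := fun v hv =>
        SimpleGraph.Adj.reachable (Or.inl ⟨by simp, hv⟩)
      intro v
      by_cases hv : 2 ≤ v.1
      · exact h2 v hv
      · have h3 : K23.Reachable 2 v :=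
          SimpleGraph.Adj.reachable (Or.inr ⟨by omega, by simp⟩)
        exact (h2 2 (by simp)).trans h3
    exact { preconnected := fun u v => (h0 u).symm.trans (h0 v) }
  · rw [tailA, tailB]
    exact ENNReal.div_lt_div_right (by norm_num) (by norm_num) (by norm_num)

end Pool.Agent.Results.MP_61ae3e_pr.AddEdge
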